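import Pool.Agent.helper55.NM.Spec3

set_option autoImplicit false

namespace Pool.Agent.helper46.NM

open Pool.Agent.NM Finset Nat

theorem PTP_mono {q : ℕ} (y : Fin q → ℝ) (hy : ∀ i, 0 < y i) (τ : Equiv.Perm (Fin q)) {j j' : ℕ} (h : j ≤ j') :
    Yp y τ j ≤ Yp y τ j' := by
  unfold Yp
  apply Finset.sum_le_sum_of_subset_of_nonneg
  · intro i hi
    rw [mem_filter] at hi ⊢
    exact ⟨hi.1, lt_of_lt_of_le hi.2 h⟩
  · intro i _ _
    exact (hy _).le

theorem PTP_lt {q : ℕ} (y : Fin q → ℝ) (hy : ∀ i, 0 < y i) (τ : Equiv.Perm (Fin q)) {j j' : ℕ} (h : j < j')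
    (hq : j' ≤ q) : Yp y τ j < Yp y τ j' := by
  unfold Yp
  refine Finset.sum_lt_sum_of_subset (i := (⟨j, by omega⟩ : Fin q)) ?_ ?_ ?_ ?_ ?_
  · intro i hi
    rw [mem_filter] at hi ⊢
    exact ⟨hi.1, lt_trans hi.2 h⟩
  · rw [mem_filter]
    exact ⟨mem_univ _, h⟩
  · rw [mem_filter]
    intro h'
    exact lt_irrefl _ h'.2
  · exact hy _
  · intro i _ _
    exact (hy _).le

open Classical in
theorem PTP_wt {p q : ℕ} (X : Fin p → ℝ) (y : Fin q → ℝ) (hy : ∀ i, 0 < y i) (k : ℕ) (τ : Equiv.Perm (Fin q)) :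
    ∃ (Hits : Finset (Finset (Fin p))) (J : Finset (Fin p) → ℕ),
      (∀ I ∈ Hits, I.Nonempty ∧ J I ≤ q ∧ I.card + J I ≤ k ∧ Yp y τ (J I) = ∑ i ∈ I, X i) ∧
      Wt X y k τ = ∑ I ∈ Hits, q.choose (J I) := by
  let J : Finset (Fin p) → ℕ := fun I =>
    if h : ∃ j, j ≤ q ∧ (I.card + j ≤ k ∧ Yp y τ j = ∑ i ∈ I, X i) then h.choose else 0
  refine ⟨(univ.filter (fun I : Finset (Fin p) => I.Nonempty)).filter
    (fun I => ∃ j, j ≤ q ∧ (I.card + j ≤ k ∧ Yp y τ j = ∑ i ∈ I, X i)), J, ?_, ?_⟩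
  · intro I hI
    rw [mem_filter, mem_filter] at hI
    have hJ : J I = hI.2.choose := dif_pos hI.2
    rw [hJ]
    exact ⟨hI.1.2, hI.2.choose_spec.1, hI.2.choose_spec.2.1, hI.2.choose_spec.2.2⟩
  · rw [Finset.sum_filter]
    unfold Wt
    refine Finset.sum_congr rfl (fun I _ => ?_)
    by_cases h : ∃ j, j ≤ q ∧ (I.card + j ≤ k ∧ Yp y τ j = ∑ i ∈ I, X i)
    · rw [if_pos h]
      have hJ : J I = h.choose := dif_pos h
      obtain ⟨s1, s2, s3⟩ := h.choose_spec
      rw [hJ]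
      rw [Finset.sum_eq_single h.choose]
      · rw [if_pos ⟨s2, s3⟩]
      · intro j hj hne
        rw [if_neg]
        rintro ⟨t1, t2⟩
        have hjq : j ≤ q := by
          have := mem_range.1 hj
          omega
        rcases lt_or_gt_of_ne hne with h1 | h1
        · have := PTP_lt y hy τ h1 s1
          rw [t2, s3] at this
          exact lt_irrefl _ this
        · have := PTP_lt y hy τ h1 hjq
          rw [t2, s3] at this
          exact lt_irrefl _ this
      · intro hj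
        exact absurd (mem_range.2 (by omega)) hj
    · rw [if_neg h]
      refine Finset.sum_eq_zero (fun j hj => ?_)
      rw [if_neg]
      rintro ⟨t1, t2⟩
      exact h ⟨j, by have := mem_range.1 hj; omega, t1, t2⟩

open Classical in
theorem PTP (hG2P : G2P_stmt) (hG3P : G3P_stmt) (hGG4 : GG4_stmt) (hBIN : BIN_stmt) : PTP_stmt := by
  intro p q k L X y ε τ hX hy hp hε hε2 hpL hkq hpq hρ1 hρ2 hkR hgood
  obtain ⟨Hits, J, hH, hW⟩ := PTP_wt X y hy k τ
  set ρ : ℝ := (k : ℝ) / ((p : ℝ) + q) with hρ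
  have hR0 : (0 : ℝ) ≤ 1 - 2 * ε := by linarith
  have hR1 : (1 : ℝ) - 2 * ε ≤ 1 := by linarith
  have hρ0 : 0 ≤ ρ := by linarith
  have hρ10 : 0 ≤ 1 - ρ := by linarith
  rw [hW]
  push_cast
  have hC : (0 : ℝ) ≤ ((p + q).choose k : ℝ) := Nat.cast_nonneg _
  have hterm : ∀ I ∈ Hits, (1 - (p : ℝ) ^ 2 / ((p : ℝ) + q)) * (q.choose (J I) : ℝ) ≤
      (ρ ^ I.card * (1 - ρ) ^ (p - I.card) * (1 - 2 * ε) ^ (k - I.card - J I)) * ((p + q).choose k : ℝ) := by
    intro I hI
    obtain ⟨h1, h2, h3, h4⟩ := hH I hI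
    have hcard : I.card ≤ p := by
      have := card_le_univ I
      rwa [Fintype.card_fin] at this
    have hb := hBIN p q k I.card (k - I.card - J I) (1 - 2 * ε) hcard (by omega) hkq hpq hR0 hkR
    rw [show k - I.card - (k - I.card - J I) = J I by omega] at hb
    exact hb
  have hsum : (1 - (p : ℝ) ^ 2 / ((p : ℝ) + q)) * ∑ I ∈ Hits, (q.choose (J I) : ℝ) ≤
      (∑ I ∈ Hits, ρ ^ I.card * (1 - ρ) ^ (p - I.card) * (1 - 2 * ε) ^ (k - I.card - J I)) * ((p + q).choose k : ℝ) := by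
    rw [Finset.mul_sum, Finset.sum_mul]
    exact Finset.sum_le_sum hterm
  refine hsum.trans (mul_le_mul_of_nonneg_right ?_ hC)
  rw [← Finset.sum_filter_add_sum_filter_not Hits (fun I => k - I.card - J I ≤ L)]
  refine _root_.add_le_add ?_ ?_
  · -- the hits with small defect
    have hYk : 0 ≤ Yp y τ k := by
      unfold Yp
      exact Finset.sum_nonneg (fun i _ => (hy _).le)
    have hgood' : (p : ℝ) * Yp y τ k < ((p : ℝ) + 1) * Yp y τ (k - (p + L)) := by
      have := not_le.1 hgood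
      push_cast at this
      linarith
    have hfacts : ∀ I ∈ Hits.filter (fun I => k - I.card - J I ≤ L), I.Nonempty ∧ I.card + J I ≤ k ∧
        (∑ i ∈ I, X i) ≤ Yp y τ k ∧ (p : ℝ) * Yp y τ k < ((p : ℝ) + 1) * ∑ i ∈ I, X i := by
      intro I hI
      rw [mem_filter] at hI
      obtain ⟨h1, h2, h3, h4⟩ := hH I hI.1
      have hcard : I.card ≤ p := by
        have := card_le_univ I
        rwa [Fintype.card_fin] at this
      have hd := hI.2
      have g1 : Yp y τ (k - (p + L)) ≤ Yp y τ (J I) := PTP_mono y hy τ (by omega)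
      have g2 : Yp y τ (J I) ≤ Yp y τ k := PTP_mono y hy τ (by omega)
      rw [h4] at g1 g2
      refine ⟨h1, h3, g2, lt_of_lt_of_le hgood' ?_⟩
      exact mul_le_mul_of_nonneg_left g1 (by positivity)
    have hyp : Hyp p (univ.filter (fun e : Fin p => ((p : ℝ) + 1) * X e < Yp y τ k))
        (Hits.filter (fun I => k - I.card - J I ≤ L)) (fun I => k - I.card - J I) := by
      refine ⟨?_, ?_, ?_⟩
      · intro I hI hsub
        obtain ⟨f1, f2, f3, f4⟩ := hfacts I hI
        have hlt : ∑ e ∈ I, ((p : ℝ) + 1) * X e < ∑ e ∈ I, Yp y τ k :=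
          Finset.sum_lt_sum_of_nonempty f1 (fun e he => (mem_filter.1 (hsub he)).2)
        rw [← Finset.mul_sum, sum_const, nsmul_eq_mul] at hlt
        have hcard : (I.card : ℝ) ≤ p := by
          have := card_le_univ I
          rw [Fintype.card_fin] at this
          exact_mod_cast this
        have : (I.card : ℝ) * Yp y τ k ≤ p * Yp y τ k := mul_le_mul_of_nonneg_right hcard hYk
        linarith
      · intro I₁ h₁ I₂ h₂ hS hsub
        by_contra hne
        obtain ⟨f1, f2, f3, f4⟩ := hfacts I₁ h₁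
        obtain ⟨g1, g2, g3, g4⟩ := hfacts I₂ h₂
        have hss : I₁ ⊂ I₂ := lt_of_le_of_ne hsub hne
        obtain ⟨e, he2, he1⟩ := Finset.exists_of_ssubset hss
        have heS : ¬ ((p : ℝ) + 1) * X e < Yp y τ k := by
          intro h
          have : e ∈ I₂ ∩ univ.filter (fun e : Fin p => ((p : ℝ) + 1) * X e < Yp y τ k) :=
            mem_inter.2 ⟨he2, mem_filter.2 ⟨mem_univ _, h⟩⟩
          rw [← hS] at this
          exact he1 (mem_inter.1 this).1
        have hins : insert e I₁ ⊆ I₂ := insert_subset he2 hsub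
        have hle : ∑ i ∈ insert e I₁, X i ≤ ∑ i ∈ I₂, X i :=
          Finset.sum_le_sum_of_subset_of_nonneg hins (fun i _ _ => (hX i).le)
        rw [sum_insert he1] at hle
        have hge : Yp y τ k ≤ ((p : ℝ) + 1) * X e := not_lt.1 heS
        have hm : ((p : ℝ) + 1) * (X e + ∑ i ∈ I₁, X i) ≤ ((p : ℝ) + 1) * ∑ i ∈ I₂, X i :=
          mul_le_mul_of_nonneg_left hle (by positivity)
        have hm2 : ((p : ℝ) + 1) * ∑ i ∈ I₂, X i ≤ ((p : ℝ) + 1) * Yp y τ k :=
          mul_le_mul_of_nonneg_left g3 (by positivity)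
        linarith
      · intro I₁ h₁ I₂ h₂ hss
        obtain ⟨a1, a2, a3, a4⟩ := hH I₁ (mem_filter.1 h₁).1
        obtain ⟨b1, b2, b3, b4⟩ := hH I₂ (mem_filter.1 h₂).1
        have hc := card_lt_card hss
        obtain ⟨e, he2, he1⟩ := Finset.exists_of_ssubset hss
        have hlt : ∑ i ∈ I₁, X i < ∑ i ∈ I₂, X i :=
          Finset.sum_lt_sum_of_subset hss.1 he2 he1 (hX e) (fun i _ _ => (hX i).le)
        have hj : J I₁ < J I₂ := by
          by_contra hcon
          have := PTP_mono y hy τ (not_lt.1 hcon)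
          rw [a4, b4] at this
          linarith
        show k - I₂.card - J I₂ + 2 ≤ k - I₁.card - J I₁
        omega
    rcases Nat.lt_or_ge (univ \ univ.filter (fun e : Fin p => ((p : ℝ) + 1) * X e < Yp y τ k)).card 3 with hc | hc
    · exact hG2P p _ _ _ ε ρ (1 - 2 * ε) hyp hε hε2 hρ1 hρ2 hR0 (le_refl _) (by omega) (by omega)
    · rcases Nat.eq_or_lt_of_le hc with hc' | hc'
      · exact hG3P p _ _ _ ε ρ (1 - 2 * ε) hyp hε hε2 hρ1 hρ2 hR0 (le_refl _) hp hc'.symm
      · exact hGG4 p _ _ _ ε ρ (1 - 2 * ε) hyp hε hε2 hρ1 hρ2 hR0 (le_refl _) hc'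
  · -- the hits with large defect
    have hone : ∑ I : Finset (Fin p), ρ ^ I.card * (1 - ρ) ^ (p - I.card) = 1 := by
      have := Fintype.sum_pow_mul_eq_add_pow (Fin p) ρ (1 - ρ)
      rw [Fintype.card_fin] at this
      rw [this]
      simp
    calc ∑ I ∈ Hits.filter (fun I => ¬ k - I.card - J I ≤ L),
          ρ ^ I.card * (1 - ρ) ^ (p - I.card) * (1 - 2 * ε) ^ (k - I.card - J I)
        ≤ ∑ I ∈ Hits.filter (fun I => ¬ k - I.card - J I ≤ L),
          ρ ^ I.card * (1 - ρ) ^ (p - I.card) * (1 - 2 * ε) ^ L := by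
          refine Finset.sum_le_sum (fun I hI => ?_)
          apply mul_le_mul_of_nonneg_left _ (by positivity)
          apply pow_le_pow_of_le_one hR0 hR1
          have := (mem_filter.1 hI).2
          omega
      _ ≤ ∑ I : Finset (Fin p), ρ ^ I.card * (1 - ρ) ^ (p - I.card) * (1 - 2 * ε) ^ L := by
          apply Finset.sum_le_sum_of_subset_of_nonneg (subset_univ _)
          intro I _ _
          positivity
      _ = (1 - 2 * ε) ^ L := by
          rw [← Finset.sum_mul, hone, one_mul]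

end Pool.Agent.helper46.NM
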